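import Pool.Agent.Q264.PD.Stm

open MeasureTheory Complex Filter Metric Set
open scoped ContDiff FourierTransform ENNReal

namespace Pool.Agent.Q264.PD.ContProof

lemma pow_conv (N : ℕ) {e t : ℝ} (he : 0 ≤ e) (he1 : e ≤ 1) (ht : 0 ≤ t) :
    (1 + e * t) ^ N ≤ 1 + e * ((1 + t) ^ N - 1) := by
  induction N with
  | zero => simp
  | succ n ih =>
    have h1 : (1 : ℝ) ≤ (1 + t) ^ n := one_le_pow₀ (by linarith)
    have h2 : 0 ≤ e * t := by positivity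
    calc (1 + e * t) ^ (n + 1) = (1 + e * t) ^ n * (1 + e * t) := pow_succ _ _
      _ ≤ (1 + e * ((1 + t) ^ n - 1)) * (1 + e * t) := by
          apply mul_le_mul_of_nonneg_right ih; linarith
      _ ≤ 1 + e * ((1 + t) ^ (n + 1) - 1) := by
          rw [pow_succ (1 + t) n]
          nlinarith [mul_nonneg he (mul_nonneg ht (sub_nonneg.2 h1)),
            mul_nonneg (mul_nonneg he (mul_nonneg ht (sub_nonneg.2 h1))) (sub_nonneg.2 he1)]

lemma weight_diff (N : ℕ) {e : ℝ} (he : 0 ≤ e) (he1 : e ≤ 1) (x y : ℂ) :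
    |(1 + e * ‖x‖) ^ N - (1 + e * ‖y‖) ^ N| ≤ (1 + e * ‖y‖) ^ N * (e * (1 + ‖x - y‖) ^ N) := by
  have hx0 : 0 ≤ e * ‖x‖ := by positivity
  have hy0 : 0 ≤ e * ‖y‖ := by positivity
  have hd0 : 0 ≤ e * ‖x - y‖ := by positivity
  have h1 : 1 + e * ‖x‖ ≤ (1 + e * ‖y‖) * (1 + e * ‖x - y‖) := by
    have : ‖x‖ ≤ ‖y‖ + ‖x - y‖ := by
      calc ‖x‖ = ‖y + (x - y)‖ := by ring_nf
        _ ≤ _ := norm_add_le _ _
    nlinarith [mul_le_mul_of_nonneg_left this he, mul_nonneg hy0 hd0]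
  have h2 : 1 + e * ‖y‖ ≤ (1 + e * ‖x‖) * (1 + e * ‖x - y‖) := by
    have : ‖y‖ ≤ ‖x‖ + ‖x - y‖ := by
      calc ‖y‖ = ‖x - (x - y)‖ := by ring_nf
        _ ≤ _ := norm_sub_le _ _
    nlinarith [mul_le_mul_of_nonneg_left this he, mul_nonneg hx0 hd0]
  set W := (1 + e * ‖x - y‖) ^ N with hW
  set a := (1 + e * ‖x‖) ^ N with ha
  set b := (1 + e * ‖y‖) ^ N with hb
  have hW1 : 1 ≤ W := one_le_pow₀ (by linarith)
  have ha1 : 1 ≤ a := one_le_pow₀ (by linarith)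
  have hb1 : 1 ≤ b := one_le_pow₀ (by linarith)
  have h3 : a ≤ b * W := by
    rw [ha, hb, hW, ← mul_pow]; exact pow_le_pow_left₀ (by linarith) h1 N
  have h4 : b ≤ a * W := by
    rw [ha, hb, hW, ← mul_pow]; exact pow_le_pow_left₀ (by linarith) h2 N
  have h5 : W - 1 ≤ e * (1 + ‖x - y‖) ^ N := by
    have := pow_conv N he he1 (norm_nonneg (x - y))
    have h6 : e * ((1 + ‖x - y‖) ^ N - 1) ≤ e * (1 + ‖x - y‖) ^ N := by nlinarith
    linarith
  have h7 : |a - b| ≤ b * (W - 1) := by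
    rw [abs_le]; constructor
    · -- b - a ≤ b (W-1)
      rcases le_total a b with hab | hab
      · nlinarith [mul_nonneg (sub_nonneg.2 hab) (sub_nonneg.2 hW1)]
      · nlinarith [mul_nonneg (by linarith : (0:ℝ) ≤ b) (sub_nonneg.2 hW1)]
    · linarith
  exact h7.trans (mul_le_mul_of_nonneg_left h5 (by linarith))

lemma sym_norm (x : ℂ) : ‖sym x‖ ≤ 1 := by
  unfold sym
  rw [norm_div, RCLike.norm_conj]
  exact div_self_le_one _

lemma sym_meas : Measurable sym := by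
  unfold sym
  exact (Complex.continuous_conj.measurable).div measurable_id

lemma sq_add_le (x y : ℝ≥0∞) {t : ℝ} (ht : 0 < t) :
    (x + y) ^ 2 ≤ ENNReal.ofReal (1 + t) * x ^ 2 + ENNReal.ofReal (1 + 1 / t) * y ^ 2 := by
  have h1 : ENNReal.ofReal (1 + t) ≠ 0 := by
    simp only [ne_eq, ENNReal.ofReal_eq_zero, not_le]; linarith
  have h2 : ENNReal.ofReal (1 + 1 / t) ≠ 0 := by
    simp only [ne_eq, ENNReal.ofReal_eq_zero, not_le]; positivity
  rcases eq_or_ne x ⊤ with hx | hx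
  · subst hx
    refine le_trans le_top (le_of_eq ?_)
    rw [ENNReal.top_pow (by norm_num), ENNReal.mul_top h1, top_add]
  rcases eq_or_ne y ⊤ with hy | hy
  · subst hy
    refine le_trans le_top (le_of_eq ?_)
    rw [ENNReal.top_pow (by norm_num), ENNReal.mul_top h2, add_top]
  obtain ⟨a, ha, rfl⟩ : ∃ a : ℝ, 0 ≤ a ∧ x = ENNReal.ofReal a :=
    ⟨x.toReal, ENNReal.toReal_nonneg, (ENNReal.ofReal_toReal hx).symm⟩
  obtain ⟨b, hb, rfl⟩ : ∃ b : ℝ, 0 ≤ b ∧ y = ENNReal.ofReal b :=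
    ⟨y.toReal, ENNReal.toReal_nonneg, (ENNReal.ofReal_toReal hy).symm⟩
  rw [← ENNReal.ofReal_add ha hb, ← ENNReal.ofReal_pow (by positivity), ← ENNReal.ofReal_pow ha,
    ← ENNReal.ofReal_pow hb, ← ENNReal.ofReal_mul (by positivity), ← ENNReal.ofReal_mul (by positivity),
    ← ENNReal.ofReal_add (by positivity) (by positivity)]
  apply ENNReal.ofReal_le_ofReal
  have h3 : (1 + t) * a ^ 2 + (1 + 1 / t) * b ^ 2 - (a + b) ^ 2 = (t * a - b) ^ 2 / t := by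
    field_simp; ring
  have h4 : 0 ≤ (t * a - b) ^ 2 / t := by positivity
  linarith

/-- `(1 + ‖ζ‖)^N ‖M ζ‖` is integrable for a Schwartz function -/
lemma schw_int (M : SchwartzMap ℂ ℂ) (N : ℕ) : Integrable (fun ζ => (1 + ‖ζ‖) ^ N * ‖M ζ‖) := by
  have h0 := M.integrable_pow_mul volume 0
  have hN := M.integrable_pow_mul volume N
  refine ((h0.add hN).const_mul (2 ^ N)).mono' ?_ ?_
  · exact (by fun_prop : Continuous fun ζ : ℂ => (1 + ‖ζ‖) ^ N * ‖M ζ‖).aestronglyMeasurable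
  · refine ae_of_all _ fun ζ => ?_
    rw [Real.norm_of_nonneg (by positivity)]
    simp only [Pi.add_apply, pow_zero, one_mul]
    have h1 : (1 + ‖ζ‖) ^ N ≤ 2 ^ N * (1 + ‖ζ‖ ^ N) := by
      rcases le_total 1 ‖ζ‖ with h | h
      · calc (1 + ‖ζ‖) ^ N ≤ (2 * ‖ζ‖) ^ N := pow_le_pow_left₀ (by positivity) (by linarith) N
          _ = 2 ^ N * ‖ζ‖ ^ N := mul_pow _ _ _
          _ ≤ _ := by gcongr; linarith
      · calc (1 + ‖ζ‖) ^ N ≤ 2 ^ N := pow_le_pow_left₀ (by positivity) (by linarith) N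
          _ = 2 ^ N * 1 := (mul_one _).symm
          _ ≤ _ := by gcongr; linarith [pow_nonneg (norm_nonneg ζ) N]
    calc (1 + ‖ζ‖) ^ N * ‖M ζ‖ ≤ (2 ^ N * (1 + ‖ζ‖ ^ N)) * ‖M ζ‖ := by gcongr
      _ = _ := by ring

/-- local integrability of the products -/
lemma prod_int (M : SchwartzMap ℂ ℂ) {F : ℂ → ℂ} (hF : MemLp F 2) (ξ : ℂ) :
    Integrable (fun η => M (ξ - η) * F η) := by
  have h1 : MemLp (fun η => M (ξ - η)) 2 :=
    (M.memLp 2).comp_measurePreserving (Measure.measurePreserving_sub_left volume ξ)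
  exact h1.integrable_mul hF

lemma aem_conv {K : ℂ → ℝ≥0∞} (hK : Measurable K) {f : ℂ → ℝ≥0∞} (hf : AEMeasurable f) :
    Measurable fun ξ => ∫⁻ η, K (ξ - η) * f η := by
  have h1 : (fun ξ => ∫⁻ η, K (ξ - η) * f η) = fun ξ => ∫⁻ η, K (ξ - η) * hf.mk f η := by
    funext ξ
    refine lintegral_congr_ae ?_
    filter_upwards [hf.ae_eq_mk] with η hη
    rw [← hη]
  rw [h1]
  have h2 : Measurable fun p : ℂ × ℂ => K (p.1 - p.2) * hf.mk f p.2 :=
    (hK.comp (measurable_fst.sub measurable_snd)).mul (hf.measurable_mk.comp measurable_snd)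
  exact h2.lintegral_prod_right'

theorem main (hYG : S_YG) (hCB : S_CB) : S_CONT := by
  intro μ k N hk0 hk1 hμ hμc hμk
  set M : SchwartzMap ℂ ℂ := 𝓕 (hμc.toSchwartzMap hμ) with hM
  have hMμ : ∀ ξ, 𝓕 μ ξ = M ξ := fun ξ => rfl
  set C : ℝ := ∫ ζ, (1 + ‖ζ‖) ^ N * ‖M ζ‖ with hC
  have hC0 : 0 ≤ C := integral_nonneg fun ζ => by positivity
  set δ : ℝ := (1 - k) / 2 with hδ
  have hδ0 : 0 < δ := by rw [hδ]; linarith
  set ε : ℝ := min 1 (δ / (C + 1)) with hε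
  have hε0 : 0 < ε := lt_min one_pos (by positivity)
  have hε1 : ε ≤ 1 := min_le_left _ _
  have hεC : ε * C ≤ δ := by
    have h1 : ε ≤ δ / (C + 1) := min_le_right _ _
    have h2 : δ / (C + 1) * C ≤ δ := by
      rw [div_mul_eq_mul_div, div_le_iff₀ (by linarith)]; nlinarith
    exact (mul_le_mul_of_nonneg_right h1 hC0).trans h2
  refine ⟨ε, k + δ, hε0, hε1, by linarith, by linarith, fun F hF hFw => ?_⟩
  set w : ℂ → ℝ := fun ξ => (1 + ε * ‖ξ‖) ^ N with hw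
  have hw1 : ∀ ξ, 1 ≤ w ξ := fun ξ => one_le_pow₀ (by have := norm_nonneg ξ; nlinarith)
  have hwc : Continuous w := by rw [hw]; fun_prop
  -- the function `w F` is in `L²`
  have hwF : MemLp (fun ξ => (w ξ : ℂ) * F ξ) 2 := by
    refine ⟨(Complex.continuous_ofReal.comp hwc).aestronglyMeasurable.mul hF, ?_⟩
    rw [eLpNorm_lt_top_iff_lintegral_rpow_enorm_lt_top (by norm_num) (by norm_num)]
    have h2 : (2 : ℝ≥0∞).toReal = ((2 : ℕ) : ℝ) := by norm_num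
    simp only [h2, ENNReal.rpow_natCast]
    exact hFw
  have hsF : ∀ {G : ℂ → ℂ}, MemLp G 2 → MemLp (fun ξ => sym ξ * G ξ) 2 := by
    intro G hG
    refine hG.of_le (sym_meas.aestronglyMeasurable.mul hG.1) (ae_of_all _ fun ξ => ?_)
    rw [norm_mul]
    exact mul_le_of_le_one_left (norm_nonneg _) (sym_norm ξ)
  have hF2 : MemLp F 2 := by
    refine hwF.of_le hF (ae_of_all _ fun ξ => ?_)
    rw [norm_mul, Complex.norm_real, Real.norm_of_nonneg (by linarith [hw1 ξ])]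
    exact le_mul_of_one_le_left (norm_nonneg _) (hw1 ξ)
  set G : ℂ → ℂ := fun η => sym η * ((w η : ℂ) * F η) with hG
  have hG2 : MemLp G 2 := hsF hwF
  set K : ℂ → ℝ≥0∞ := fun ζ => ENNReal.ofReal (ε * ((1 + ‖ζ‖) ^ N * ‖M ζ‖)) with hK
  have hKm : Measurable K := by
    rw [hK]
    exact (by fun_prop : Continuous fun ζ : ℂ => ε * ((1 + ‖ζ‖) ^ N * ‖M ζ‖)).measurable.ennreal_ofReal
  set f : ℂ → ℝ≥0∞ := fun η => ‖(w η : ℂ) * F η‖ₑ with hf
  have hfm : AEMeasurable f := hwF.1.enorm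
  -- pointwise
  have hpt : ∀ ξ, ‖(w ξ : ℂ) * ∫ η, 𝓕 μ (ξ - η) * (sym η * F η)‖ₑ ≤
      ‖∫ η, 𝓕 μ (ξ - η) * G η‖ₑ + ∫⁻ η, K (ξ - η) * f η := by
    intro ξ
    have hi1 : Integrable (fun η => M (ξ - η) * (sym η * F η)) := prod_int M (hsF hF2) ξ
    have hi2 : Integrable (fun η => M (ξ - η) * G η) := prod_int M hG2 ξ
    have e1 : (w ξ : ℂ) * ∫ η, 𝓕 μ (ξ - η) * (sym η * F η) = (∫ η, M (ξ - η) * G η) +
        ∫ η, ((w ξ : ℂ) * (M (ξ - η) * (sym η * F η)) - M (ξ - η) * G η) := by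
      rw [integral_sub (hi1.const_mul _) hi2, integral_const_mul]
      simp only [hMμ]
      ring
    rw [e1]
    refine (enorm_add_le _ _).trans (add_le_add (le_of_eq rfl) ?_)
    refine (enorm_integral_le_lintegral_enorm _).trans (lintegral_mono fun η => ?_)
    have e2 : (w ξ : ℂ) * (M (ξ - η) * (sym η * F η)) - M (ξ - η) * G η =
        M (ξ - η) * (sym η * (((w ξ - w η : ℝ) : ℂ) * F η)) := by
      rw [hG]; push_cast; ring
    simp only [e2, hK, hf]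
    rw [← ofReal_norm, ← ofReal_norm, ← ENNReal.ofReal_mul (by positivity)]
    apply ENNReal.ofReal_le_ofReal
    rw [norm_mul, norm_mul, norm_mul, norm_mul, Complex.norm_real, Complex.norm_real, Real.norm_eq_abs,
      Real.norm_of_nonneg (by linarith [hw1 η] : (0 : ℝ) ≤ w η)]
    have h1 := weight_diff N hε0.le hε1 ξ η
    have h2 := sym_norm η
    calc ‖M (ξ - η)‖ * (‖sym η‖ * (|w ξ - w η| * ‖F η‖))
        ≤ ‖M (ξ - η)‖ * (1 * ((w η * (ε * (1 + ‖ξ - η‖) ^ N)) * ‖F η‖)) := by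
          gcongr
      _ = ε * ((1 + ‖ξ - η‖) ^ N * ‖M (ξ - η)‖) * (w η * ‖F η‖) := by ring
  -- integrate
  have hI1 : ∫⁻ ξ, ‖∫ η, 𝓕 μ (ξ - η) * G η‖ₑ ^ 2 ≤ ENNReal.ofReal (k ^ 2) * ∫⁻ η, f η ^ 2 := by
    refine (hCB μ k hk0.le hμ hμc hμk G hG2).trans ?_
    gcongr with η
    rw [hG, hf]
    simp only
    rw [enorm_mul]
    have : ‖sym η‖ₑ ≤ 1 := by
      rw [← ofReal_norm]
      exact ENNReal.ofReal_le_one.2 (sym_norm η)
    exact mul_le_of_le_one_left (zero_le) this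
  have hKi : ∫⁻ ζ, K ζ ≤ ENNReal.ofReal δ := by
    rw [hK, ← ofReal_integral_eq_lintegral_ofReal ((schw_int M N).const_mul ε)
      (ae_of_all _ fun ζ => by positivity), integral_const_mul]
    exact ENNReal.ofReal_le_ofReal hεC
  have hI2 : ∫⁻ ξ, (∫⁻ η, K (ξ - η) * f η) ^ 2 ≤ ENNReal.ofReal (δ ^ 2) * ∫⁻ η, f η ^ 2 := by
    refine (hYG K f hKm hfm).trans ?_
    rw [ENNReal.ofReal_pow hδ0.le]
    gcongr
  set t : ℝ := δ / k with ht
  have ht0 : 0 < t := by positivity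
  calc (∫⁻ ξ, ‖(w ξ : ℂ) * ∫ η, 𝓕 μ (ξ - η) * (sym η * F η)‖ₑ ^ 2)
      ≤ ∫⁻ ξ, (ENNReal.ofReal (1 + t) * ‖∫ η, 𝓕 μ (ξ - η) * G η‖ₑ ^ 2 +
          ENNReal.ofReal (1 + 1 / t) * (∫⁻ η, K (ξ - η) * f η) ^ 2) :=
        lintegral_mono fun ξ => (pow_le_pow_left' (hpt ξ) 2).trans (sq_add_le _ _ ht0)
    _ = ENNReal.ofReal (1 + t) * (∫⁻ ξ, ‖∫ η, 𝓕 μ (ξ - η) * G η‖ₑ ^ 2) +
          ENNReal.ofReal (1 + 1 / t) * ∫⁻ ξ, (∫⁻ η, K (ξ - η) * f η) ^ 2 := by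
        rw [lintegral_add_right _ (((aem_conv hKm hfm).pow_const 2).const_mul _),
          lintegral_const_mul' _ _ ENNReal.ofReal_ne_top, lintegral_const_mul' _ _ ENNReal.ofReal_ne_top]
    _ ≤ ENNReal.ofReal (1 + t) * (ENNReal.ofReal (k ^ 2) * ∫⁻ η, f η ^ 2) +
          ENNReal.ofReal (1 + 1 / t) * (ENNReal.ofReal (δ ^ 2) * ∫⁻ η, f η ^ 2) := by gcongr
    _ = ENNReal.ofReal ((k + δ) ^ 2) * ∫⁻ η, f η ^ 2 := by
        rw [← mul_assoc, ← mul_assoc, ← add_mul, ← ENNReal.ofReal_mul (by positivity),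
          ← ENNReal.ofReal_mul (by positivity), ← ENNReal.ofReal_add (by positivity) (by positivity)]
        congr 2
        rw [ht]; field_simp; ring
    _ = _ := by rw [hf]

end Pool.Agent.Q264.PD.ContProof

namespace Pool.Agent.Q264.PD

theorem t_CONT (hYG : S_YG) (hCB : S_CB) : S_CONT := ContProof.main hYG hCB

end Pool.Agent.Q264.PD
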