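import Pool.Agent.Q264.PD.Stm
import Pool.Agent.Q98.PD.CONT

open MeasureTheory Complex Filter Metric Set
open scoped ContDiff FourierTransform ENNReal

namespace Pool.Agent.Q264.PD.FixProof

open ContProof

lemma eL2 (f : ℂ → ℂ) : eLpNorm f 2 volume = (∫⁻ x, ‖f x‖ₑ ^ 2) ^ (1 / 2 : ℝ) := by
  rw [eLpNorm_eq_lintegral_rpow_enorm_toReal (by norm_num) (by norm_num)]
  have h2 : (2 : ℝ≥0∞).toReal = ((2 : ℕ) : ℝ) := by norm_num
  simp only [h2, ENNReal.rpow_natCast]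
  norm_num

lemma memLp_iff {f : ℂ → ℂ} (hf : AEStronglyMeasurable f volume) :
    MemLp f 2 volume ↔ (∫⁻ x, ‖f x‖ₑ ^ 2) < ⊤ := by
  constructor
  · intro h
    have := h.2
    rw [eLpNorm_lt_top_iff_lintegral_rpow_enorm_lt_top (by norm_num) (by norm_num)] at this
    have h2 : (2 : ℝ≥0∞).toReal = ((2 : ℕ) : ℝ) := by norm_num
    simpa only [h2, ENNReal.rpow_natCast] using this
  · intro h
    refine ⟨hf, ?_⟩
    rw [eLpNorm_lt_top_iff_lintegral_rpow_enorm_lt_top (by norm_num) (by norm_num)]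
    have h2 : (2 : ℝ≥0∞).toReal = ((2 : ℕ) : ℝ) := by norm_num
    simpa only [h2, ENNReal.rpow_natCast] using h

lemma schw_bdd (M : SchwartzMap ℂ ℂ) : ∃ B : ℝ, 0 < B ∧ ∀ x, ‖M x‖ ≤ B := by
  obtain ⟨B, hB, h⟩ := M.decay 0 0
  exact ⟨B, hB, fun x => by simpa using h x⟩

lemma conv_cont (M : SchwartzMap ℂ ℂ) {φ : ℂ → ℂ} (hφ : Integrable φ) :
    Continuous (fun ξ => ∫ η, M (ξ - η) * φ η) ∧ ∃ B : ℝ, ∀ ξ, ‖∫ η, M (ξ - η) * φ η‖ ≤ B := by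
  obtain ⟨B, hB, h⟩ := schw_bdd M
  constructor
  · have hbg : BddAbove (range fun x => ‖M x‖) := ⟨B, by rintro _ ⟨x, rfl⟩; exact h x⟩
    have h1 := hbg.continuous_convolution_right_of_integrable (ContinuousLinearMap.mul ℝ ℂ) hφ M.continuous
    refine h1.congr fun ξ => ?_
    unfold MeasureTheory.convolution
    refine integral_congr_ae (ae_of_all _ fun η => ?_)
    simp only [ContinuousLinearMap.mul_apply']
    ring
  · refine ⟨∫ η, B * ‖φ η‖, fun ξ => ?_⟩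
    refine (norm_integral_le_integral_norm _).trans (integral_mono_of_nonneg (ae_of_all _ fun η => norm_nonneg _)
      (hφ.norm.const_mul B) (ae_of_all _ fun η => ?_))
    simp only [norm_mul]
    gcongr
    exact h _

/-- a Schwartz function times a power weight is in `L²` -/
lemma schw_w (M : SchwartzMap ℂ ℂ) (N : ℕ) {w : ℂ → ℝ} (hw : Continuous w)
    (hw1 : ∀ ξ, |w ξ| ≤ (1 + ‖ξ‖) ^ N) : MemLp (fun ξ => (w ξ : ℂ) * M ξ) 2 := by
  obtain ⟨B, hB, h⟩ := schw_bdd M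
  have hm : AEStronglyMeasurable (fun ξ => (w ξ : ℂ) * M ξ) volume :=
    ((Complex.continuous_ofReal.comp hw).mul M.continuous).aestronglyMeasurable
  rw [memLp_two_iff_integrable_sq_norm hm]
  refine ((schw_int M (2 * N)).const_mul B).mono' (hm.norm.pow 2) (ae_of_all _ fun ξ => ?_)
  rw [Real.norm_of_nonneg (by positivity), norm_mul, Complex.norm_real, Real.norm_eq_abs, mul_pow, sq_abs]
  have h1 : w ξ ^ 2 ≤ (1 + ‖ξ‖) ^ (2 * N) := by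
    rw [mul_comm 2 N, pow_mul, ← sq_abs]
    exact pow_le_pow_left₀ (abs_nonneg _) (hw1 ξ) 2
  calc w ξ ^ 2 * ‖M ξ‖ ^ 2 = w ξ ^ 2 * (‖M ξ‖ * ‖M ξ‖) := by ring
    _ ≤ (1 + ‖ξ‖) ^ (2 * N) * (‖M ξ‖ * B) := by
        gcongr
        exact h ξ
    _ = B * ((1 + ‖ξ‖) ^ (2 * N) * ‖M ξ‖) := by ring

lemma inv_w {N : ℕ} (hN : 3 ≤ N) {e : ℝ} (he : 0 < e) (he1 : e ≤ 1) :
    MemLp (fun ξ : ℂ => ((((1 + e * ‖ξ‖) ^ N)⁻¹ : ℝ) : ℂ)) 2 := by
  have hc : Continuous fun ξ : ℂ => (((1 + e * ‖ξ‖) ^ N)⁻¹ : ℝ) := by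
    refine Continuous.inv₀ (by fun_prop) fun ξ => ?_
    have := norm_nonneg ξ
    positivity
  have hm : AEStronglyMeasurable (fun ξ : ℂ => ((((1 + e * ‖ξ‖) ^ N)⁻¹ : ℝ) : ℂ)) volume :=
    (Complex.continuous_ofReal.comp hc).aestronglyMeasurable
  rw [memLp_two_iff_integrable_sq_norm hm]
  have h6 : Integrable (fun ξ : ℂ => (1 + ‖ξ‖) ^ (-(6 : ℝ))) := by
    refine integrable_one_add_norm ?_
    rw [Complex.finrank_real_complex]; norm_num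
  refine (h6.const_mul ((e⁻¹) ^ 6)).mono' (hm.norm.pow 2) (ae_of_all _ fun ξ => ?_)
  have h0 := norm_nonneg ξ
  rw [Real.norm_of_nonneg (by positivity), Complex.norm_real, Real.norm_of_nonneg (by positivity)]
  have h1 : (1 : ℝ) ≤ 1 + e * ‖ξ‖ := by nlinarith
  have h2 : e * (1 + ‖ξ‖) ≤ 1 + e * ‖ξ‖ := by nlinarith
  have h3 : (1 + e * ‖ξ‖) ^ 3 ≤ (1 + e * ‖ξ‖) ^ N := pow_le_pow_right₀ h1 hN
  have h4 : (e * (1 + ‖ξ‖)) ^ 3 ≤ (1 + e * ‖ξ‖) ^ N :=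
    (pow_le_pow_left₀ (by positivity) h2 3).trans h3
  have h5 : ((1 + e * ‖ξ‖) ^ N)⁻¹ ≤ ((e * (1 + ‖ξ‖)) ^ 3)⁻¹ := inv_anti₀ (by positivity) h4
  calc (((1 + e * ‖ξ‖) ^ N)⁻¹) ^ 2 ≤ (((e * (1 + ‖ξ‖)) ^ 3)⁻¹) ^ 2 := by gcongr
    _ = (e⁻¹) ^ 6 * (1 + ‖ξ‖) ^ (-(6 : ℝ)) := by
        rw [Real.rpow_neg (by positivity)]
        have : (1 + ‖ξ‖) ^ (6 : ℝ) = (1 + ‖ξ‖) ^ 6 := by
          rw [show (6 : ℝ) = ((6 : ℕ) : ℝ) by norm_num, Real.rpow_natCast]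
        rw [this, mul_pow]
        field_simp

theorem main (hCONT : S_CONT) : S_FIX := by
  intro μ g k N hk0 hk1 hμ hμc hμk hg hgc
  obtain ⟨ε, κ, hε0, hε1, hκ0, hκ1, hcon⟩ := hCONT μ k (N + 3) hk0 hk1 hμ hμc hμk
  set M : SchwartzMap ℂ ℂ := 𝓕 (hμc.toSchwartzMap hμ) with hM
  set G : SchwartzMap ℂ ℂ := 𝓕 (hgc.toSchwartzMap hg) with hG
  have hMμ : ∀ ξ, 𝓕 μ ξ = M ξ := fun ξ => rfl
  have hGg : ∀ ξ, 𝓕 g ξ = G ξ := fun ξ => rfl
  set w : ℂ → ℝ := fun ξ => (1 + ε * ‖ξ‖) ^ (N + 3) with hw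
  have hw1 : ∀ ξ, 1 ≤ w ξ := fun ξ => one_le_pow₀ (by have := norm_nonneg ξ; nlinarith)
  have hw0 : ∀ ξ, 0 < w ξ := fun ξ => by linarith [hw1 ξ]
  have hwc : Continuous w := by rw [hw]; fun_prop
  have hwne : ∀ ξ, (w ξ : ℂ) ≠ 0 := fun ξ => by exact_mod_cast (hw0 ξ).ne'
  -- the operator
  set T : (ℂ → ℂ) → ℂ → ℂ := fun F ξ => ∫ η, M (ξ - η) * (sym η * F η) with hT
  have hinv : MemLp (fun ξ : ℂ => (((w ξ)⁻¹ : ℝ) : ℂ)) 2 := inv_w (by omega) hε0 hε1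
  have hsm : AEStronglyMeasurable sym volume := sym_meas.aestronglyMeasurable
  have hwi : Continuous fun ξ : ℂ => ((w ξ : ℂ))⁻¹ := (Complex.continuous_ofReal.comp hwc).inv₀ hwne
  have hdiv : ∀ {U : ℂ → ℂ}, MemLp U 2 → AEStronglyMeasurable (fun η => U η / w η) volume := by
    intro U hU
    simp only [div_eq_mul_inv]
    exact hU.1.mul hwi.aestronglyMeasurable
  -- for `U ∈ L²`
  have hFU : ∀ {U : ℂ → ℂ}, MemLp U 2 → Integrable (fun η => sym η * (U η / w η)) := by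
    intro U hU
    have h1 : Integrable (fun η => (((w η)⁻¹ : ℝ) : ℂ) * U η) := hinv.integrable_mul hU
    refine h1.mono (hsm.mul (hdiv hU)) (ae_of_all _ fun η => ?_)
    rw [norm_mul, norm_div, norm_mul]
    have h2 := sym_norm η
    have h3 : ‖(((w η)⁻¹ : ℝ) : ℂ)‖ = ‖(w η : ℂ)‖⁻¹ := by push_cast; rw [norm_inv]
    rw [h3]
    calc ‖sym η‖ * (‖U η‖ / ‖(w η : ℂ)‖) ≤ 1 * (‖U η‖ / ‖(w η : ℂ)‖) := by gcongr
      _ = _ := by ring
  have hTm : ∀ {U : ℂ → ℂ}, MemLp U 2 →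
      (∫⁻ ξ, ‖(w ξ : ℂ) * T (fun η => U η / w η) ξ‖ₑ ^ 2) ≤ ENNReal.ofReal (κ ^ 2) * ∫⁻ ξ, ‖U ξ‖ₑ ^ 2 := by
    intro U hU
    have e1 : ∀ ξ, (w ξ : ℂ) * (U ξ / w ξ) = U ξ := fun ξ => by
      field_simp [hwne ξ]
    have h0 : (∫⁻ ξ, ‖(w ξ : ℂ) * (U ξ / w ξ)‖ₑ ^ 2) < ⊤ := by
      simp only [e1]
      exact (memLp_iff hU.1).1 hU
    have h1 : (∫⁻ ξ, ‖(w ξ : ℂ) * T (fun η => U η / w η) ξ‖ₑ ^ 2) ≤
        ENNReal.ofReal (κ ^ 2) * ∫⁻ ξ, ‖(w ξ : ℂ) * (U ξ / w ξ)‖ₑ ^ 2 := hcon (fun η => U η / w η) (hdiv hU) h0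
    simp only [e1] at h1
    exact h1
  have hTc : ∀ {U : ℂ → ℂ}, MemLp U 2 → Continuous (T (fun η => U η / w η)) := fun hU =>
    (conv_cont M (hFU hU)).1
  have hTL : ∀ {U : ℂ → ℂ}, MemLp U 2 → MemLp (fun ξ => (w ξ : ℂ) * T (fun η => U η / w η) ξ) 2 := by
    intro U hU
    have hm : AEStronglyMeasurable (fun ξ => (w ξ : ℂ) * T (fun η => U η / w η) ξ) volume :=
      ((Complex.continuous_ofReal.comp hwc).mul (hTc hU)).aestronglyMeasurable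
    rw [memLp_iff hm]
    exact (hTm hU).trans_lt (ENNReal.mul_lt_top ENNReal.ofReal_lt_top ((memLp_iff hU.1).1 hU))
  have hGL : MemLp (fun ξ => (w ξ : ℂ) * G ξ) 2 := by
    refine schw_w G (N + 3) hwc fun ξ => ?_
    rw [abs_of_pos (hw0 ξ)]
    have := norm_nonneg ξ
    exact pow_le_pow_left₀ (by positivity) (by nlinarith) _
  have hPL : ∀ U : Lp ℂ 2 (volume : Measure ℂ),
      MemLp (fun ξ => (w ξ : ℂ) * G ξ + (w ξ : ℂ) * T (fun η => U η / w η) ξ) 2 := fun U =>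
    hGL.add (hTL (Lp.memLp U))
  set Φ : Lp ℂ 2 (volume : Measure ℂ) → Lp ℂ 2 (volume : Measure ℂ) := fun U => (hPL U).toLp with hΦ
  have hlip : ContractingWith ⟨κ, hκ0.le⟩ Φ := by
    refine ⟨by exact_mod_cast hκ1, fun U V => ?_⟩
    rw [Lp.edist_def, Lp.edist_def]
    have e1 : (⇑(Φ U) - ⇑(Φ V)) =ᵐ[volume]
        fun ξ => (w ξ : ℂ) * T (fun η => (⇑U - ⇑V) η / w η) ξ := by
      filter_upwards [(hPL U).coeFn_toLp, (hPL V).coeFn_toLp] with ξ h1 h2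
      rw [Pi.sub_apply, h1, h2]
      have i1 : Integrable (fun η => M (ξ - η) * (sym η * (U η / w η))) := by
        have := (hFU (Lp.memLp U)).bdd_mul (c := (schw_bdd M).choose)
          (M.continuous.comp (continuous_const.sub continuous_id)).aestronglyMeasurable
          (ae_of_all _ fun η => (schw_bdd M).choose_spec.2 (ξ - η))
        exact this
      have i2 : Integrable (fun η => M (ξ - η) * (sym η * (V η / w η))) := by
        have := (hFU (Lp.memLp V)).bdd_mul (c := (schw_bdd M).choose)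
          (M.continuous.comp (continuous_const.sub continuous_id)).aestronglyMeasurable
          (ae_of_all _ fun η => (schw_bdd M).choose_spec.2 (ξ - η))
        exact this
      have e2 : T (fun η => (⇑U - ⇑V) η / w η) ξ = T (fun η => U η / w η) ξ - T (fun η => V η / w η) ξ := by
        simp only [hT]
        rw [← integral_sub i1 i2]
        refine integral_congr_ae (ae_of_all _ fun η => ?_)
        simp only [Pi.sub_apply]
        ring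
      rw [e2]; ring
    rw [eLpNorm_congr_ae e1, eL2, eL2]
    have h1 := hTm (U := ⇑U - ⇑V) ((Lp.memLp U).sub (Lp.memLp V))
    calc (∫⁻ ξ, ‖(w ξ : ℂ) * T (fun η => (⇑U - ⇑V) η / w η) ξ‖ₑ ^ 2) ^ (1 / 2 : ℝ)
        ≤ (ENNReal.ofReal (κ ^ 2) * ∫⁻ ξ, ‖(⇑U - ⇑V) ξ‖ₑ ^ 2) ^ (1 / 2 : ℝ) :=
          ENNReal.rpow_le_rpow h1 (by norm_num)
      _ = ENNReal.ofReal κ * (∫⁻ ξ, ‖(⇑U - ⇑V) ξ‖ₑ ^ 2) ^ (1 / 2 : ℝ) := by
          rw [ENNReal.mul_rpow_of_nonneg _ _ (by norm_num)]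
          congr 1
          rw [ENNReal.ofReal_rpow_of_nonneg (by positivity) (by norm_num), ← Real.sqrt_eq_rpow,
            Real.sqrt_sq hκ0.le]
      _ = _ := by
          congr 1
          exact (ENNReal.ofReal_eq_coe_nnreal hκ0.le)
  obtain ⟨U, hU⟩ : ∃ U, Φ U = U := by
    haveI : Nonempty (Lp ℂ 2 (volume : Measure ℂ)) := ⟨0⟩
    exact ⟨_, hlip.fixedPoint_isFixedPt⟩
  set H : ℂ → ℂ := fun ξ => G ξ + T (fun η => U η / w η) ξ with hH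
  have hUH : ⇑U =ᵐ[volume] fun ξ => (w ξ : ℂ) * H ξ := by
    have h1 := (hPL U).coeFn_toLp
    have h2 : (hPL U).toLp = U := hU
    rw [h2] at h1
    filter_upwards [h1] with ξ h3
    rw [h3, hH]; ring
  have hHF : ∀ ξ, T H ξ = T (fun η => U η / w η) ξ := by
    intro ξ
    simp only [hT]
    refine integral_congr_ae ?_
    filter_upwards [hUH] with η h3
    rw [h3]
    field_simp [hwne η]
  have hint := hFU (Lp.memLp U)
  obtain ⟨hc, B, hB⟩ := conv_cont M hint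
  obtain ⟨B', hB'0, hB'⟩ := schw_bdd G
  refine ⟨H, G.continuous.add hc, ⟨B' + B, fun ξ => (norm_add_le _ _).trans (add_le_add (hB' ξ) (hB ξ))⟩, ?_, ?_⟩
  · have h1 : (∫⁻ ξ, ‖(w ξ : ℂ) * H ξ‖ₑ ^ 2) < ⊤ := by
      have h2 := (memLp_iff (Lp.memLp U).1).1 (Lp.memLp U)
      rwa [lintegral_congr_ae (g := fun ξ => ‖(w ξ : ℂ) * H ξ‖ₑ ^ 2)] at h2
      filter_upwards [hUH] with ξ h3
      rw [h3]
    have h2 : (∫⁻ ξ, ‖(((1 + ‖ξ‖) ^ N : ℝ) : ℂ) * H ξ‖ₑ ^ 2) ≤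
        ∫⁻ ξ, ENNReal.ofReal (((ε⁻¹) ^ (N + 3)) ^ 2) * ‖(w ξ : ℂ) * H ξ‖ₑ ^ 2 := by
      refine lintegral_mono fun ξ => ?_
      rw [← ofReal_norm, ← ofReal_norm, ← ENNReal.ofReal_pow (norm_nonneg _),
        ← ENNReal.ofReal_pow (norm_nonneg _), ← ENNReal.ofReal_mul (by positivity)]
      apply ENNReal.ofReal_le_ofReal
      rw [← mul_pow]
      refine pow_le_pow_left₀ (norm_nonneg _) ?_ 2
      have h0 := norm_nonneg ξ
      rw [norm_mul, norm_mul, Complex.norm_real, Complex.norm_real, Real.norm_of_nonneg (by positivity),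
        Real.norm_of_nonneg (hw0 ξ).le, ← mul_assoc]
      gcongr
      calc (1 + ‖ξ‖) ^ N ≤ (1 + ‖ξ‖) ^ (N + 3) := pow_le_pow_right₀ (by linarith) (by omega)
        _ = (ε⁻¹) ^ (N + 3) * (ε * (1 + ‖ξ‖)) ^ (N + 3) := by
            rw [← mul_pow, ← mul_assoc, inv_mul_cancel₀ hε0.ne', one_mul]
        _ ≤ (ε⁻¹) ^ (N + 3) * w ξ := by
            refine mul_le_mul_of_nonneg_left ?_ (by positivity)
            exact pow_le_pow_left₀ (by positivity) (by nlinarith) _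
    refine h2.trans_lt ?_
    rw [lintegral_const_mul' _ _ ENNReal.ofReal_ne_top]
    exact ENNReal.mul_lt_top ENNReal.ofReal_lt_top h1
  · intro ξ
    have := hHF ξ
    simp only [hT] at this
    simp only [hMμ, hGg]
    rw [this]

end Pool.Agent.Q264.PD.FixProof

namespace Pool.Agent.Q264.PD

theorem t_FIX (hCONT : S_CONT) : S_FIX := FixProof.main hCONT

end Pool.Agent.Q264.PD
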