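import Pool.Agent.Q264.PD.Stm
import Pool.Agent.Q98.PD.FIX

open MeasureTheory Complex Filter Metric Set
open scoped ContDiff FourierTransform ENNReal Convolution

namespace Pool.Agent.Q264.PD.LbProof

open ContProof FixProof

lemma int_of_w {H : ℂ → ℂ} (hH : Continuous H)
    (h : (∫⁻ ξ, ‖(((1 + ‖ξ‖) ^ 6 : ℝ) : ℂ) * H ξ‖ₑ ^ 2) < ⊤) : Integrable H := by
  have hc : Continuous fun ξ : ℂ => (((1 + ‖ξ‖) ^ 6 : ℝ) : ℂ) * H ξ :=
    (Complex.continuous_ofReal.comp (by fun_prop)).mul hH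
  have h1 : MemLp (fun ξ : ℂ => (((1 + ‖ξ‖) ^ 6 : ℝ) : ℂ) * H ξ) 2 volume :=
    (memLp_iff hc.aestronglyMeasurable).2 h
  have h2 := inv_w (N := 6) (by norm_num) one_pos le_rfl
  have h3 := h2.integrable_mul h1
  refine h3.congr (ae_of_all _ fun ξ => ?_)
  have h0 := norm_nonneg ξ
  have h4 : ((((1 + ‖ξ‖) ^ 6 : ℝ)) : ℂ) ≠ 0 := by
    have : (0 : ℝ) < (1 + ‖ξ‖) ^ 6 := by positivity
    exact_mod_cast this.ne'
  simp only [Pi.mul_apply, one_mul]
  rw [← mul_assoc, ← Complex.ofReal_mul, inv_mul_cancel₀ (by positivity)]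
  simp

lemma conv_eq (M : SchwartzMap ℂ ℂ) (φ : ℂ → ℂ) :
    (fun ξ => ∫ η, M (ξ - η) * φ η) = (φ ⋆[ContinuousLinearMap.mul ℂ ℂ] M) := by
  funext ξ
  unfold MeasureTheory.convolution
  refine integral_congr_ae (ae_of_all _ fun η => ?_)
  simp only [ContinuousLinearMap.mul_apply']
  ring

lemma conv_int (M : SchwartzMap ℂ ℂ) {φ : ℂ → ℂ} (hφ : Integrable φ) :
    Integrable (fun ξ => ∫ η, M (ξ - η) * φ η) := by
  rw [conv_eq]
  exact hφ.integrable_convolution _ M.integrable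

theorem main : S_LB := by
  intro μ g H hμ hμc hg hgc hH hHb hHw heq x
  set M : SchwartzMap ℂ ℂ := 𝓕 (hμc.toSchwartzMap hμ) with hM
  set G : SchwartzMap ℂ ℂ := 𝓕 (hgc.toSchwartzMap hg) with hG
  have hMμ : ∀ ξ, 𝓕 μ ξ = M ξ := fun ξ => rfl
  have hGg : ∀ ξ, 𝓕 g ξ = G ξ := fun ξ => rfl
  have hHi : Integrable H := int_of_w hH hHw
  set φ : ℂ → ℂ := fun ξ => sym ξ * H ξ with hφ
  have hφi : Integrable φ := by
    refine hHi.mono (sym_meas.aestronglyMeasurable.mul hH.aestronglyMeasurable) (ae_of_all _ fun ξ => ?_)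
    rw [hφ]; simp only [norm_mul]
    exact mul_le_of_le_one_left (norm_nonneg _) (sym_norm ξ)
  have hinvM : 𝓕⁻ (M : ℂ → ℂ) x = μ x := by
    have h1 : Integrable (𝓕 μ) := by
      have : (𝓕 μ) = (M : ℂ → ℂ) := funext hMμ
      rw [this]; exact M.integrable
    have h2 := hμ.continuous.fourierInv_fourier_eq (hμ.continuous.integrable_of_hasCompactSupport hμc) h1
    exact congrFun h2 x
  have hinvG : 𝓕⁻ (G : ℂ → ℂ) x = g x := by
    have h1 : Integrable (𝓕 g) := by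
      have : (𝓕 g) = (G : ℂ → ℂ) := funext hGg
      rw [this]; exact G.integrable
    have h2 := hg.continuous.fourierInv_fourier_eq (hg.continuous.integrable_of_hasCompactSupport hgc) h1
    exact congrFun h2 x
  have e1 : H = fun ξ => G ξ + ∫ η, M (ξ - η) * φ η := by
    funext ξ; exact heq ξ
  have e2 : 𝓕⁻ H x = 𝓕⁻ (G : ℂ → ℂ) x + 𝓕⁻ (fun ξ => ∫ η, M (ξ - η) * φ η) x := by
    rw [e1]
    simp only [Real.fourierInv_eq]
    rw [← integral_add]
    · refine integral_congr_ae (ae_of_all _ fun ξ => ?_)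
      simp only [smul_add]
    · have := (Real.fourierIntegral_convergent_iff (f := (G : ℂ → ℂ)) (μ := volume) (-x)).2 G.integrable
      simpa using this
    · have := (Real.fourierIntegral_convergent_iff (f := fun ξ => ∫ η, M (ξ - η) * φ η) (μ := volume) (-x)).2
        (conv_int M hφi)
      simpa using this
  rw [e2, hinvG, conv_eq]
  have e3 : 𝓕⁻ (φ ⋆[ContinuousLinearMap.mul ℂ ℂ] M) x = 𝓕⁻ φ x * 𝓕⁻ (M : ℂ → ℂ) x := by
    rw [Real.fourierInv_eq_fourier_neg, Real.fourierInv_eq_fourier_neg, Real.fourierInv_eq_fourier_neg]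
    exact Real.fourier_mul_convolution_eq hφi M.integrable (-x)
  rw [e3, hinvM]
  ring

end Pool.Agent.Q264.PD.LbProof

namespace Pool.Agent.Q264.PD

theorem t_LB : S_LB := LbProof.main

end Pool.Agent.Q264.PD
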