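import Pool.Agent.Q264.PD.Stm
import Pool.Agent.Q98.PD.LB
import Pool.Agent.H153R4.Pl

open MeasureTheory Complex Filter Metric Set Topology
open scoped ContDiff FourierTransform ENNReal Convolution

namespace Pool.Agent.Q264.PD.CbProof

open ContProof FixProof LbProof

/-- step 1: `F ∈ L¹ ∩ L²` -/
lemma step1 {μ : ℂ → ℂ} {k : ℝ} (hk : 0 ≤ k) (hμ : ContDiff ℝ ∞ μ) (hμc : HasCompactSupport μ)
    (hμk : ∀ z, ‖μ z‖ ≤ k) {F : ℂ → ℂ} (hF1 : Integrable F) (hF2 : MemLp F 2) :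
    (∫⁻ ξ, ‖∫ η, 𝓕 μ (ξ - η) * F η‖ₑ ^ 2) ≤ ENNReal.ofReal (k ^ 2) * ∫⁻ η, ‖F η‖ₑ ^ 2 := by
  set M : SchwartzMap ℂ ℂ := 𝓕 (hμc.toSchwartzMap hμ) with hM
  have hMμ : ∀ ξ, 𝓕 μ ξ = M ξ := fun ξ => rfl
  simp only [hMμ]
  set C : ℂ → ℂ := fun ξ => ∫ η, M (ξ - η) * F η with hC
  obtain ⟨hCc, B, hB⟩ := conv_cont M hF1
  have hC1 : Integrable C := conv_int M hF1
  have hC2 : MemLp C 2 := by
    rw [memLp_two_iff_integrable_sq_norm hC1.1]
    refine (hC1.norm.const_mul B).mono' (hC1.1.norm.pow 2) (ae_of_all _ fun ξ => ?_)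
    rw [Real.norm_of_nonneg (by positivity), sq]
    exact mul_le_mul_of_nonneg_right (hB ξ) (norm_nonneg _)
  have hFM : ∀ x, 𝓕 (M : ℂ → ℂ) x = μ (-x) := by
    intro x
    have h1 : Integrable (𝓕 μ) := by
      have : (𝓕 μ) = (M : ℂ → ℂ) := funext hMμ
      rw [this]; exact M.integrable
    have h2 := hμ.continuous.fourierInv_fourier_eq (hμ.continuous.integrable_of_hasCompactSupport hμc) h1
    have h3 := congrFun h2 (-x)
    rw [Real.fourierInv_eq_fourier_neg, neg_neg] at h3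
    rw [← h3]
    have : (𝓕 μ) = (M : ℂ → ℂ) := funext hMμ
    rw [this]
  have e1 : ∀ x, 𝓕 C x = 𝓕 F x * μ (-x) := by
    intro x
    rw [hC, conv_eq, ← hFM]
    exact Real.fourier_mul_convolution_eq hF1 M.integrable x
  calc (∫⁻ ξ, ‖C ξ‖ₑ ^ 2) = ∫⁻ x, ‖𝓕 C x‖ₑ ^ 2 := (Pool.Agent.H153R4.plancherel C hC1 hC2).symm
    _ ≤ ∫⁻ x, ENNReal.ofReal (k ^ 2) * ‖𝓕 F x‖ₑ ^ 2 := by
        refine lintegral_mono fun x => ?_
        rw [e1, enorm_mul, mul_pow, mul_comm]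
        gcongr
        rw [ENNReal.ofReal_pow hk, ← ofReal_norm]
        gcongr
        exact hμk _
    _ = ENNReal.ofReal (k ^ 2) * ∫⁻ x, ‖𝓕 F x‖ₑ ^ 2 := lintegral_const_mul' _ _ ENNReal.ofReal_ne_top
    _ = _ := by rw [Pool.Agent.H153R4.plancherel F hF1 hF2]

theorem main : S_CB := by
  intro μ k hk hμ hμc hμk F hF
  set M : SchwartzMap ℂ ℂ := 𝓕 (hμc.toSchwartzMap hμ) with hM
  have hMμ : ∀ ξ, 𝓕 μ ξ = M ξ := fun ξ => rfl
  set Fn : ℕ → ℂ → ℂ := fun n => (closedBall (0 : ℂ) n).indicator F with hFn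
  have hFn2 : ∀ n, MemLp (Fn n) 2 := fun n => hF.indicator measurableSet_closedBall
  have hFn1 : ∀ n, Integrable (Fn n) := by
    intro n
    have h1 : MemLp F 2 (volume.restrict (closedBall (0 : ℂ) n)) := hF.restrict _
    haveI : IsFiniteMeasure ((volume : Measure ℂ).restrict (closedBall (0 : ℂ) n)) :=
      ⟨by rw [Measure.restrict_apply_univ]; exact measure_closedBall_lt_top⟩
    have h2 : Integrable F (volume.restrict (closedBall (0 : ℂ) n)) := h1.integrable (by norm_num)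
    exact (integrable_indicator_iff measurableSet_closedBall).2 h2
  set C : ℂ → ℂ := fun ξ => ∫ η, 𝓕 μ (ξ - η) * F η with hC
  set Cn : ℕ → ℂ → ℂ := fun n ξ => ∫ η, 𝓕 μ (ξ - η) * Fn n η with hCn
  have hCnc : ∀ n, Continuous (Cn n) := fun n => (conv_cont M (hFn1 n)).1
  have hle : ∀ n η, ‖Fn n η‖ ≤ ‖F η‖ := fun n η => norm_indicator_le_norm_self F η
  have hlim : ∀ ξ, Tendsto (fun n => Cn n ξ) atTop (𝓝 (C ξ)) := by
    intro ξ
    have hi : Integrable (fun η => M (ξ - η) * F η) := prod_int M hF ξ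
    refine tendsto_integral_of_dominated_convergence (fun η => ‖M (ξ - η) * F η‖) ?_ hi.norm ?_ ?_
    · intro n
      exact (prod_int M (hFn2 n) ξ).1
    · intro n
      refine ae_of_all _ fun η => ?_
      simp only [hMμ, norm_mul]
      gcongr
      exact hle n η
    · refine ae_of_all _ fun η => ?_
      refine tendsto_const_nhds.mul ?_
      refine tendsto_const_nhds.congr' ?_
      filter_upwards [eventually_ge_atTop ⌈‖η‖⌉₊] with n hn
      simp only [hFn]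
      rw [indicator_of_mem]
      rw [mem_closedBall_zero_iff]
      exact (Nat.le_ceil _).trans (by exact_mod_cast hn)
  calc (∫⁻ ξ, ‖C ξ‖ₑ ^ 2) = ∫⁻ ξ, liminf (fun n => ‖Cn n ξ‖ₑ ^ 2) atTop := by
        refine lintegral_congr fun ξ => ?_
        have h1 : Tendsto (fun n => ‖Cn n ξ‖ₑ ^ 2) atTop (𝓝 (‖C ξ‖ₑ ^ 2)) :=
          (ENNReal.continuous_pow 2).continuousAt.tendsto.comp ((hlim ξ).enorm)
        exact h1.liminf_eq.symm
    _ ≤ liminf (fun n => ∫⁻ ξ, ‖Cn n ξ‖ₑ ^ 2) atTop :=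
        lintegral_liminf_le fun n => ((hCnc n).enorm.measurable).pow_const 2
    _ ≤ ENNReal.ofReal (k ^ 2) * ∫⁻ η, ‖F η‖ₑ ^ 2 := by
        have h1 : ∀ n, (∫⁻ ξ, ‖Cn n ξ‖ₑ ^ 2) ≤ ENNReal.ofReal (k ^ 2) * ∫⁻ η, ‖F η‖ₑ ^ 2 := by
          intro n
          refine (step1 hk hμ hμc hμk (hFn1 n) (hFn2 n)).trans ?_
          gcongr with η
          rw [← ofReal_norm, ← ofReal_norm]
          exact ENNReal.ofReal_le_ofReal (hle n η)
        calc liminf (fun n => ∫⁻ ξ, ‖Cn n ξ‖ₑ ^ 2) atTop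
            ≤ liminf (fun _ : ℕ => ENNReal.ofReal (k ^ 2) * ∫⁻ η, ‖F η‖ₑ ^ 2) atTop :=
              liminf_le_liminf (Eventually.of_forall h1)
          _ = _ := liminf_const _

end Pool.Agent.Q264.PD.CbProof

namespace Pool.Agent.Q264.PD

theorem t_CB : S_CB := CbProof.main

end Pool.Agent.Q264.PD
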